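import Pool.Agent.H.MP_d88d3c_co.C

namespace Pool.Agent.Results.MP_d88d3c_co.Yes

open Pointwise

/-- Number of integer points in the `n`-th dilate of `P`. -/
noncomputable def ehr {ι : Type} (P : Set (ι → ℝ)) (n : ℕ) : ℕ :=
  Set.ncard {z : ι → ℤ | (fun i => (z i : ℝ)) ∈ (n : ℝ) • P}

/-- Dimension of (the affine hull of) `P`. -/
noncomputable def dim {ι : Type} (P : Set (ι → ℝ)) : ℕ :=
  Module.finrank ℝ (vectorSpan ℝ P)

/-- The numerator of the Ehrhart series. -/
noncomputable def hstar {ι : Type} (P : Set (ι → ℝ)) : PowerSeries ℤ :=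
  (1 - PowerSeries.X) ^ (dim P + 1) *
    PowerSeries.mk (fun n => if n = 0 then 1 else (ehr P n : ℤ))

/-- The order polytope. -/
def orderPolytope (α : Type) [PartialOrder α] : Set (α → ℝ) :=
  {x | (∀ a, 0 ≤ x a ∧ x a ≤ 1) ∧ ∀ a b, a ≤ b → x a ≤ x b}

/-- Convex hull of a nonempty finite set of integer points. -/
def IsLatticePolytope {ι : Type} (P : Set (ι → ℝ)) : Prop :=
  ∃ S : Finset (ι → ℤ), S.Nonempty ∧
    P = convexHull ℝ ((fun z i => (z i : ℝ)) '' (S : Set (ι → ℤ)))

open Pool.Agent.H.MP_d88d3c_co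

theorem dim_eq {α : Type} [Fintype α] [DecidableEq α] (P A : Set (α → ℝ)) (Z : Finset α)
    (h0 : (0 : α → ℝ) ∈ P) (hA : A ⊆ P) (h1 : ∀ y ∈ P, ∀ a ∈ Z, y a = 0)
    (h2 : ∀ a, a ∉ Z → Pi.single a (1 : ℝ) ∈ Submodule.span ℝ A) :
    dim P + Z.card = Fintype.card α := by
  have e : vectorSpan ℝ P = Submodule.span ℝ
      (Set.range (fun a : {a // a ∉ Z} => (Pi.single a.1 1 : α → ℝ))) := by
    rw [vectorSpan_eq_span_vsub_set_right ℝ h0]
    simp only [vsub_eq_sub, sub_zero, Set.image_id']
    refine le_antisymm (Submodule.span_le.2 fun y hy => ?_) (Submodule.span_le.2 ?_)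
    · rw [pi_eq_sum_univ' y]
      refine Submodule.sum_mem _ fun a _ => ?_
      by_cases ha : a ∈ Z
      · simp [h1 y hy a ha]
      · exact Submodule.smul_mem _ _ (Submodule.subset_span ⟨⟨a, ha⟩, rfl⟩)
    · rintro _ ⟨a, rfl⟩
      exact Submodule.span_mono hA (h2 a.1 a.2)
  unfold dim
  have li : LinearIndependent ℝ (fun a : {a // a ∉ Z} => (Pi.single a.1 1 : α → ℝ)) :=
    (Pi.linearIndependent_single_one α ℝ).comp _ Subtype.val_injective
  rw [e, finrank_span_eq_card li]
  rw [Fintype.card_subtype_compl]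
  have := Finset.card_le_univ Z
  simp only [Fintype.card_coe]
  omega

theorem result (α : Type) [Fintype α] [PartialOrder α] (h : ∃ a b : α, a < b) :
    ∃ P : Set (α → ℝ), IsLatticePolytope P ∧ dim P + 2 = Fintype.card α ∧
      hstar P = hstar (orderPolytope α) := by
  classical
  obtain ⟨a, b, hab⟩ := h
  obtain ⟨m, M, hmM, S, T, h0, hZ, hsp, hT, hcard⟩ := final hab
  have hA0 : (0 : α → ℝ) ∈ cs '' (S : Set (α → ℤ)) := ⟨0, h0, by funext i; simp [cs]⟩
  have d1 : dim (convexHull ℝ (cs '' (S : Set (α → ℤ)))) + 2 = Fintype.card α := by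
    rw [← Finset.card_pair hmM]
    refine dim_eq _ _ _ (subset_convexHull ℝ _ hA0) (subset_convexHull ℝ _) ?_ hsp
    intro y hy c hc
    refine convexHull_min (t := {r : α → ℝ | r c = 0}) ?_ ?_ hy
    · rintro _ ⟨z, hz, rfl⟩
      simp [cs, hZ z hz c hc]
    · intro y hy z hz a b _ _ _
      simp only [Set.mem_ofPred_eq] at hy hz ⊢
      simp [hy, hz]
  have d2 : dim (orderPolytope α) = Fintype.card α := by
    refine dim_eq (orderPolytope α) (orderPolytope α) ∅ ⟨by simp, by simp⟩ subset_rfl (by simp) ?_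
    intro c _
    have ind : ∀ p : α → Prop, (∀ a b, a ≤ b → p a → p b) →
        (fun a => if p a then (1 : ℝ) else 0) ∈ orderPolytope α := by
      intro p hp
      refine ⟨fun a => by beta_reduce; split_ifs <;> simp, fun a b hab => ?_⟩
      have := hp a b hab
      beta_reduce
      split_ifs with h1 h2
      · exact le_rfl
      · exact absurd (this h1) h2
      · exact zero_le_one
      · exact le_rfl
    have j1 := Submodule.subset_span (R := ℝ) (ind (fun b => c ≤ b) (fun _ _ h h' => h'.trans h))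
    have j2 := Submodule.subset_span (R := ℝ) (ind (fun b => c < b) (fun _ _ h h' => h'.trans_le h))
    convert Submodule.sub_mem _ j1 j2 using 1
    funext i
    by_cases h : i = c
    · subst h; simp
    · have : c < i ↔ c ≤ i := ⟨le_of_lt, fun h' => lt_of_le_of_ne h' (Ne.symm h)⟩
      simp [h, this]
  have e1 : ∀ n, ehr (convexHull ℝ (cs '' (S : Set (α → ℤ)))) n = (T n).card := by
    intro n
    unfold ehr
    rw [← Set.ncard_coe_finset]
    congr 1
    ext z
    exact (hT n z).symm
  have e2 : ∀ n : ℕ, n ≠ 0 → ehr (orderPolytope α) n = (BB (∅ : Finset α) 0 n).card := by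
    intro n hn
    have hn' : (0 : ℝ) < n := by positivity
    unfold ehr
    rw [← Set.ncard_coe_finset]
    congr 1
    ext z
    simp only [Set.mem_ofPred_eq, Finset.mem_coe, mem_BB, Set.mem_smul_set_iff_inv_smul_mem₀ hn'.ne',
      orderPolytope, Pi.smul_apply, smul_eq_mul, Finset.notMem_empty, not_false_eq_true, true_imp_iff,
      false_imp_iff, implies_true, true_and]
    refine and_congr (forall_congr' fun a => and_congr ?_ ?_) (forall_congr' fun a =>
      forall_congr' fun b => imp_congr_right fun _ => ?_)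
    · rw [mul_nonneg_iff_of_pos_left (inv_pos.2 hn')]
      exact_mod_cast Iff.rfl
    · rw [inv_mul_le_iff₀ hn', mul_one]
      exact_mod_cast Iff.rfl
    · rw [mul_le_mul_iff_right₀ (inv_pos.2 hn')]
      exact_mod_cast Iff.rfl
  obtain ⟨g, hg⟩ : ∃ g : ℕ → ℤ, g = fun k : ℕ => ((BB (∅ : Finset α) 0 ((k : ℤ) - 2)).card : ℤ) :=
    ⟨_, rfl⟩
  rw [← hg] at hcard
  have emp : ∀ t : ℤ, t < 0 → (BB (∅ : Finset α) 0 t).card = 0 := by
    intro t ht
    rw [Finset.card_eq_zero, Finset.eq_empty_iff_forall_notMem]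
    intro x hx
    have := (mem_BB.1 hx).1 a (by simp)
    omega
  have g0 : g 0 = 0 := by rw [hg]; simp [emp]
  have g1 : g 1 = 0 := by rw [hg]; simp [emp]
  have g2 : g 2 = 1 := by
    rw [hg]
    simp only [Nat.cast_ofNat, sub_self, Nat.cast_eq_one, Finset.card_eq_one]
    refine ⟨0, ?_⟩
    ext x
    simp only [mem_BB, Finset.mem_singleton]
    constructor
    · intro hx
      funext i
      have := hx.1 i (by simp)
      simp only [Pi.zero_apply]
      omega
    · rintro rfl
      exact ⟨by simp, by simp, monotone_const⟩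
  have f2 : ∀ n, (if n = 0 then 1 else (ehr (orderPolytope α) n : ℤ)) = g (n + 2) := by
    intro n
    split_ifs with hn
    · rw [hn, g2]
    · rw [e2 n hn, hg]
      simp
  have f1 : ∀ n, (if n = 0 then 1 else (ehr (convexHull ℝ (cs '' (S : Set (α → ℤ)))) n : ℤ))
      = g (n + 2) - 2 * g (n + 1) + g n := by
    intro n
    split_ifs with hn
    · rw [hn]; simp [g0, g1, g2]
    · rw [e1, hcard]
  refine ⟨convexHull ℝ (cs '' (S : Set (α → ℤ))), ⟨S, ⟨0, h0⟩, rfl⟩, d1, ?_⟩
  unfold hstar
  simp only [f1, f2]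
  have key : PowerSeries.mk (fun n => g (n + 2) - 2 * g (n + 1) + g n)
      = (1 - PowerSeries.X) ^ 2 * PowerSeries.mk (fun n => g (n + 2)) := by
    have : (1 - PowerSeries.X : PowerSeries ℤ) ^ 2 * PowerSeries.mk (fun n => g (n + 2))
        = PowerSeries.mk (fun n => g (n + 2)) - PowerSeries.X * PowerSeries.mk (fun n => g (n + 2))
          - PowerSeries.X * PowerSeries.mk (fun n => g (n + 2))
          + PowerSeries.X * (PowerSeries.X * PowerSeries.mk (fun n => g (n + 2))) := by ring
    rw [this]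
    ext n
    obtain _ | _ | n := n
    · simp [g0, g1]
    · simp [g1, PowerSeries.coeff_succ_X_mul]
      ring
    · simp [PowerSeries.coeff_succ_X_mul]
      ring
  rw [key, d2, ← d1]
  ring

end Pool.Agent.Results.MP_d88d3c_co.Yes
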